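import Mathlib

set_option autoImplicit false

/-!
# Q2 is false: infinitely many values of the limit

For `T x = x / 2` there is a measurable `R ⊆ [0,1]` such that `L(R,p)` exists for every `p`, and for every set `S` of
full measure the values `L(R,p)`, `p ∈ S`, form an uncountable set.
-/

namespace Pool.Agent.Results.MP_8df504_an.InfinitelyManyValues

open MeasureTheory Filter Topology Set

/-- A broken-linear transformation: continuous on `[0,1]`, mapping `[0,1]` into itself, and affine on each interval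
`[a_{j-1}, a_j]` of a finite partition `0 = a_0 < ... < a_m = 1`. -/
def BrokenLinear (T : ℝ → ℝ) : Prop :=
  ContinuousOn T (Icc 0 1) ∧ MapsTo T (Icc 0 1) (Icc 0 1) ∧
    ∃ (m : ℕ) (a : Fin (m + 1) → ℝ), StrictMono a ∧ a 0 = 0 ∧ a (Fin.last m) = 1 ∧
      ∀ j : Fin m, ∃ c d : ℝ, ∀ x ∈ Icc (a j.castSucc) (a j.succ), T x = c * x + d

/-- `A_N(R,p)`: the proportion of the iterates `T p, ..., T^N p` lying in `R`. -/
noncomputable def freq (T : ℝ → ℝ) (R : Set ℝ) (p : ℝ) (N : ℕ) : ℝ :=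
  (1 / (N : ℝ)) * ∑ i ∈ Finset.Icc 1 N, R.indicator (fun _ => (1 : ℝ)) (T^[i] p)

/-- the set `R` -/
def RR : Set ℝ := {x | ∃ i : ℕ, 1 / 2 < 2 ^ i * x ∧ 2 ^ i * x ≤ 1 ∧
  ⌊((i : ℝ) + 1) * (2 ^ i * x)⌋ - ⌊(i : ℝ) * (2 ^ i * x)⌋ = 1}

theorem measurableSet_RR : MeasurableSet RR := by
  have : RR = ⋃ i : ℕ, {x : ℝ | 1 / 2 < 2 ^ i * x} ∩ {x : ℝ | 2 ^ i * x ≤ 1} ∩
      {x : ℝ | ⌊((i : ℝ) + 1) * (2 ^ i * x)⌋ - ⌊(i : ℝ) * (2 ^ i * x)⌋ = 1} := by
    ext x
    simp only [RR, mem_ofPred_eq, mem_iUnion, mem_inter_iff, and_assoc]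
  rw [this]
  refine MeasurableSet.iUnion fun i => ?_
  refine (MeasurableSet.inter ?_ ?_).inter ?_
  · exact measurableSet_lt measurable_const (measurable_const.mul measurable_id)
  · exact measurableSet_le (measurable_const.mul measurable_id) measurable_const
  · have hm : Measurable fun x : ℝ => ⌊((i : ℝ) + 1) * (2 ^ i * x)⌋ - ⌊(i : ℝ) * (2 ^ i * x)⌋ := by
      refine Measurable.sub ?_ ?_
      · exact Int.measurable_floor.comp (measurable_const.mul (measurable_const.mul measurable_id))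
      · exact Int.measurable_floor.comp (measurable_const.mul (measurable_const.mul measurable_id))
    exact hm (measurableSet_singleton 1)

theorem iter (p : ℝ) (k : ℕ) : (fun x : ℝ => x / 2)^[k] p = p / 2 ^ k := by
  induction k with
  | zero => simp
  | succ k ih => rw [Function.iterate_succ_apply', ih, pow_succ]; field_simp

/-- the unique scale -/
theorem scale_unique {x : ℝ} {i j : ℕ} (hi : 1 / 2 < 2 ^ i * x) (hi' : 2 ^ i * x ≤ 1)
    (hj : 1 / 2 < 2 ^ j * x) (hj' : 2 ^ j * x ≤ 1) : i = j := by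
  have hx : 0 < x := by
    by_contra h
    push Not at h
    have : (2 : ℝ) ^ i * x ≤ 0 := mul_nonpos_of_nonneg_of_nonpos (by positivity) h
    linarith
  rcases lt_trichotomy i j with h | h | h
  · exfalso
    have h1 : (2 : ℝ) ^ (i + 1) ≤ 2 ^ j := pow_le_pow_right₀ (by norm_num) h
    have h2 : (2 : ℝ) ^ (i + 1) * x ≤ 2 ^ j * x := mul_le_mul_of_nonneg_right h1 hx.le
    rw [pow_succ] at h2
    linarith
  · exact h
  · exfalso
    have h1 : (2 : ℝ) ^ (j + 1) ≤ 2 ^ i := pow_le_pow_right₀ (by norm_num) h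
    have h2 : (2 : ℝ) ^ (j + 1) * x ≤ 2 ^ i * x := mul_le_mul_of_nonneg_right h1 hx.le
    rw [pow_succ] at h2
    linarith

theorem ind_eq {t : ℝ} (ht : 1 / 2 < t) (ht' : t ≤ 1) {x : ℝ} {i : ℕ} (hx : 2 ^ i * x = t) :
    RR.indicator (fun _ => (1 : ℝ)) x = (⌊((i : ℝ) + 1) * t⌋ : ℝ) - ⌊(i : ℝ) * t⌋ := by
  have h0 : ⌊(i : ℝ) * t⌋ ≤ ⌊((i : ℝ) + 1) * t⌋ := Int.floor_le_floor (by nlinarith)
  have h1 : ⌊((i : ℝ) + 1) * t⌋ ≤ ⌊(i : ℝ) * t⌋ + 1 := by
    have : ((i : ℝ) + 1) * t ≤ (i : ℝ) * t + 1 := by nlinarith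
    calc ⌊((i : ℝ) + 1) * t⌋ ≤ ⌊(i : ℝ) * t + 1⌋ := Int.floor_le_floor this
      _ = ⌊(i : ℝ) * t⌋ + 1 := Int.floor_add_one _
  by_cases hR : x ∈ RR
  · rw [indicator_of_mem hR]
    obtain ⟨j, hj, hj', hj''⟩ := hR
    have hij : i = j := scale_unique (by rw [hx]; exact ht) (by rw [hx]; exact ht') hj hj'
    subst hij
    rw [hx] at hj''
    have : ((⌊((i : ℝ) + 1) * t⌋ - ⌊(i : ℝ) * t⌋ : ℤ) : ℝ) = ((1 : ℤ) : ℝ) := by rw [hj'']
    push_cast at this
    linarith
  · rw [indicator_of_notMem hR]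
    have hne : ¬ (⌊((i : ℝ) + 1) * t⌋ - ⌊(i : ℝ) * t⌋ = 1) := by
      intro h
      exact hR ⟨i, by rw [hx]; exact ht, by rw [hx]; exact ht', by rw [hx]; exact h⟩
    have h2 : ⌊((i : ℝ) + 1) * t⌋ = ⌊(i : ℝ) * t⌋ := by omega
    rw [h2]; ring

theorem tendsto_freq {p t : ℝ} {i : ℕ} (ht : 1 / 2 < t) (ht' : t ≤ 1) (hp : 2 ^ i * p = t) :
    Tendsto (fun N => freq (fun x => x / 2) RR p N) atTop (𝓝 t) := by
  have hsum : ∀ N : ℕ, ∑ k ∈ Finset.Icc 1 N, RR.indicator (fun _ => (1 : ℝ)) ((fun x : ℝ => x / 2)^[k] p) =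
      (⌊((i : ℝ) + N + 1) * t⌋ : ℝ) - ⌊((i : ℝ) + 1) * t⌋ := by
    intro N
    induction N with
    | zero => simp
    | succ N ih =>
      rw [Finset.sum_Icc_succ_top (by omega), ih, iter]
      rw [ind_eq ht ht' (x := p / 2 ^ (N + 1)) (i := i + (N + 1)) (by
        rw [← hp, pow_add]; field_simp)]
      push_cast
      have e1 : (i : ℝ) + (N + 1) = i + N + 1 := by ring
      rw [e1]
      ring
  have hsq : ∀ N : ℕ, 1 ≤ N → |freq (fun x => x / 2) RR p N - t| ≤ (((i : ℝ) + 3) * 1 + 1) / N := by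
    intro N hN
    have hN' : (0 : ℝ) < N := by exact_mod_cast hN
    have h1 : freq (fun x => x / 2) RR p N - t =
        (((⌊((i : ℝ) + N + 1) * t⌋ : ℝ) - ⌊((i : ℝ) + 1) * t⌋) - N * t) / N := by
      rw [freq, hsum N]
      field_simp
    rw [h1, abs_div, abs_of_pos hN']
    refine div_le_div_of_nonneg_right ?_ hN'.le
    have a1 := Int.floor_le (((i : ℝ) + N + 1) * t)
    have a2 := Int.lt_floor_add_one (((i : ℝ) + N + 1) * t)
    have a3 := Int.floor_le (((i : ℝ) + 1) * t)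
    have a4 := Int.lt_floor_add_one (((i : ℝ) + 1) * t)
    rw [abs_le]
    have hi0 : (0 : ℝ) ≤ i := by positivity
    have e1 : ((i : ℝ) + N + 1) * t = ((i : ℝ) + 1) * t + N * t := by ring
    rw [e1] at a1 a2
    rw [e1]
    constructor <;> linarith
  rw [tendsto_iff_dist_tendsto_zero]
  refine squeeze_zero' (Eventually.of_forall fun N => dist_nonneg) (g := fun N : ℕ => (((i : ℝ) + 3) * 1 + 1) / N)
    ?_ (tendsto_const_div_atTop_nhds_zero_nat _)
  filter_upwards [eventually_ge_atTop 1] with N hN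
  rw [Real.dist_eq]
  exact hsq N hN

theorem exists_scale {p : ℝ} (hp : 0 < p) (hp' : p ≤ 1) : ∃ i : ℕ, 1 / 2 < 2 ^ i * p ∧ 2 ^ i * p ≤ 1 := by
  have hex : ∃ n : ℕ, 1 < 2 ^ n * p := by
    obtain ⟨n, hn⟩ := pow_unbounded_of_one_lt (1 / p) (by norm_num : (1 : ℝ) < 2)
    exact ⟨n, by rwa [div_lt_iff₀ hp] at hn⟩
  classical
  have h0 : Nat.find hex ≠ 0 := by
    intro h
    have := Nat.find_spec hex
    rw [h] at this
    simp at this
    linarith
  obtain ⟨i, hi⟩ := Nat.exists_eq_succ_of_ne_zero h0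
  refine ⟨i, ?_, ?_⟩
  · have := Nat.find_spec hex
    rw [hi, Nat.succ_eq_add_one, pow_succ] at this
    linarith
  · have := Nat.find_min hex (m := i) (by omega)
    exact not_lt.mp this

theorem tendsto_freq_zero : Tendsto (fun N => freq (fun x => x / 2) RR 0 N) atTop (𝓝 0) := by
  have : ∀ N, freq (fun x => x / 2) RR 0 N = 0 := by
    intro N
    rw [freq]
    rw [Finset.sum_eq_zero, mul_zero]
    intro k _
    rw [iter, zero_div]
    refine indicator_of_notMem ?_ _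
    rintro ⟨i, hi, _⟩
    simp at hi
    linarith
  simp_rw [this]
  exact tendsto_const_nhds

/-- There are a broken-linear transformation `T` and a measurable `R ⊆ [0,1]` such that `L(R,p)` exists for every
`p ∈ [0,1]`, while for every set `S ⊆ [0,1]` whose complement in `[0,1]` is null the set of values
`{L(R,p) : p ∈ S}` is infinite, and even uncountable. -/
theorem result : ∃ (T : ℝ → ℝ) (R : Set ℝ) (L : ℝ → ℝ), BrokenLinear T ∧ MeasurableSet R ∧ R ⊆ Icc 0 1 ∧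
    (∀ p ∈ Icc (0 : ℝ) 1, Tendsto (fun N => freq T R p N) atTop (𝓝 (L p))) ∧
    ∀ S ⊆ Icc (0 : ℝ) 1, volume (Icc (0 : ℝ) 1 \ S) = 0 → (L '' S).Infinite ∧ ¬ (L '' S).Countable := by
  classical
  have hlim : ∀ p ∈ Icc (0 : ℝ) 1, ∃ l : ℝ, Tendsto (fun N => freq (fun x => x / 2) RR p N) atTop (𝓝 l) := by
    intro p hp
    rcases hp.1.eq_or_lt with h | h
    · rw [← h]; exact ⟨0, tendsto_freq_zero⟩
    · obtain ⟨i, h1, h2⟩ := exists_scale h hp.2
      exact ⟨_, tendsto_freq h1 h2 rfl⟩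
  choose! L hL using hlim
  have hL1 : ∀ t : ℝ, 1 / 2 < t → t ≤ 1 → L t = t := fun t h1 h2 =>
    tendsto_nhds_unique (hL t ⟨by linarith, h2⟩) (tendsto_freq (i := 0) h1 h2 (by simp))
  refine ⟨fun x => x / 2, RR, L, ⟨?_, ?_, 1, fun j => (j : ℝ), ?_, ?_, ?_, ?_⟩, measurableSet_RR, ?_, hL, ?_⟩
  · exact (continuous_id.div_const 2).continuousOn
  · intro x hx
    exact ⟨by have := hx.1; positivity, by have := hx.1; have := hx.2; linarith⟩
  · intro i j hij
    change ((i : ℕ) : ℝ) < ((j : ℕ) : ℝ)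
    exact_mod_cast hij
  · simp
  · simp
  · intro j
    exact ⟨1 / 2, 0, fun x _ => by ring⟩
  · rintro x ⟨i, h1, h2, _⟩
    have hx : 0 < x := by
      by_contra h
      push Not at h
      have : (2 : ℝ) ^ i * x ≤ 0 := mul_nonpos_of_nonneg_of_nonpos (by positivity) h
      linarith
    refine ⟨hx.le, ?_⟩
    have : (1 : ℝ) ≤ 2 ^ i := one_le_pow₀ (by norm_num)
    nlinarith
  · intro S hS hS0
    have hunc : ¬ (L '' S).Countable := by
      intro hc
      have h1 : (S ∩ Ioc (1 / 2) 1).Countable := by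
        refine hc.mono ?_
        rintro t ⟨htS, ht⟩
        exact ⟨t, htS, hL1 t ht.1 ht.2⟩
      have h2 : volume (Ioc (1 / 2 : ℝ) 1) = 0 := by
        refine le_antisymm ?_ bot_le
        calc volume (Ioc (1 / 2 : ℝ) 1) ≤ volume ((S ∩ Ioc (1 / 2) 1) ∪ (Icc (0 : ℝ) 1 \ S)) := by
              refine measure_mono fun t ht => ?_
              by_cases htS : t ∈ S
              · exact Or.inl ⟨htS, ht⟩
              · exact Or.inr ⟨⟨by linarith [ht.1], ht.2⟩, htS⟩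
          _ ≤ volume (S ∩ Ioc (1 / 2) 1) + volume (Icc (0 : ℝ) 1 \ S) := measure_union_le _ _
          _ = 0 := by rw [h1.measure_zero, hS0, add_zero]
      rw [Real.volume_Ioc] at h2
      norm_num at h2
    exact ⟨fun hf => hunc hf.countable, hunc⟩

end Pool.Agent.Results.MP_8df504_an.InfinitelyManyValues
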