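import Mathlib

set_option autoImplicit false

/-!
# Q1 is false, even when `R` is an interval

There is a broken-linear `T` such that for almost every `p` the frequencies of visits to `R = [0,1/5]` diverge.
-/

namespace Pool.Agent.Results.MP_8df504_an.IntervalDivergence

open MeasureTheory Filter Topology Set

/-- A broken-linear transformation: continuous on `[0,1]`, mapping `[0,1]` into itself, and affine on each interval
`[a_{j-1}, a_j]` of a finite partition `0 = a_0 < ... < a_m = 1`. -/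
def BrokenLinear (T : ℝ → ℝ) : Prop :=
  ContinuousOn T (Icc 0 1) ∧ MapsTo T (Icc 0 1) (Icc 0 1) ∧
    ∃ (m : ℕ) (a : Fin (m + 1) → ℝ), StrictMono a ∧ a 0 = 0 ∧ a (Fin.last m) = 1 ∧
      ∀ j : Fin m, ∃ c d : ℝ, ∀ x ∈ Icc (a j.castSucc) (a j.succ), T x = c * x + d

/-- `A_N(R,p)`: the proportion of the iterates `T p, ..., T^N p` lying in `R`. -/
noncomputable def freq (T : ℝ → ℝ) (R : Set ℝ) (p : ℝ) (N : ℕ) : ℝ :=
  (1 / (N : ℝ)) * ∑ i ∈ Finset.Icc 1 N, R.indicator (fun _ => (1 : ℝ)) (T^[i] p)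

/-- the expanding part -/
noncomputable def SS (x : ℝ) : ℝ := min (5 * x) (2 - 5 * x)

theorem continuous_SS : Continuous SS := by
  unfold SS; fun_prop

/-- the two branches' domains -/
def JJ (b : Bool) : Set ℝ := if b then Icc (1 / 5) (2 / 5) else Icc 0 (1 / 5)

theorem isClosed_JJ (b : Bool) : IsClosed (JJ b) := by
  cases b <;> simp [JJ, isClosed_Icc]

theorem JJ_subset (b : Bool) : JJ b ⊆ Icc 0 (2 / 5) := by
  intro x hx
  cases b
  · simp only [JJ, Bool.false_eq_true, if_false] at hx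
    exact ⟨hx.1, by linarith [hx.2]⟩
  · simp only [JJ, if_true] at hx
    exact ⟨by linarith [hx.1], hx.2⟩

/-- inverse branches -/
theorem exists_preimage (b : Bool) {y : ℝ} (hy : y ∈ Icc (0 : ℝ) (2 / 5)) : ∃ x ∈ JJ b, SS x = y := by
  obtain ⟨h1, h2⟩ := hy
  cases b
  · refine ⟨y / 5, ?_, ?_⟩
    · simp only [JJ, Bool.false_eq_true, if_false]
      exact ⟨by linarith, by linarith⟩
    · rw [SS, min_eq_left (by linarith)]; ring
  · refine ⟨(2 - y) / 5, ?_, ?_⟩
    · simp only [JJ, if_true]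
      exact ⟨by linarith, by linarith⟩
    · rw [SS, min_eq_right (by linarith)]; ring

theorem exists_finite (n : ℕ) : ∀ w : ℕ → Bool, ∃ x ∈ Icc (0 : ℝ) (2 / 5), ∀ j < n, SS^[j] x ∈ JJ (w j) := by
  induction n with
  | zero => exact fun w => ⟨0, ⟨le_rfl, by norm_num⟩, fun j hj => absurd hj (by omega)⟩
  | succ n ih =>
    intro w
    obtain ⟨y, hy, hj⟩ := ih (fun j => w (j + 1))
    obtain ⟨x, hx, hxy⟩ := exists_preimage (w 0) hy
    refine ⟨x, JJ_subset _ hx, ?_⟩
    intro j hjn
    cases j with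
    | zero => exact hx
    | succ j =>
      rw [Function.iterate_succ_apply, hxy]
      exact hj j (by omega)

theorem exists_point (w : ℕ → Bool) : ∃ x : ℝ, ∀ j, SS^[j] x ∈ JJ (w j) := by
  set K : ℕ → Set ℝ := fun n => Icc (0 : ℝ) (2 / 5) ∩ ⋂ j ∈ Finset.range n, (SS^[j]) ⁻¹' (JJ (w j)) with hK
  have hclosed : ∀ n, IsClosed (K n) := fun n => by
    refine isClosed_Icc.inter (isClosed_biInter fun j _ => ?_)
    exact (isClosed_JJ _).preimage (continuous_SS.iterate j)
  have hne : (⋂ n, K n).Nonempty := by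
    refine IsCompact.nonempty_iInter_of_sequence_nonempty_isCompact_isClosed K ?_ ?_ ?_ hclosed
    · intro n x hx
      refine ⟨hx.1, ?_⟩
      simp only [mem_iInter, Finset.mem_range] at hx ⊢
      have := hx.2
      simp only [mem_iInter, Finset.mem_range] at this
      intro j hj
      exact this j (by omega)
    · intro n
      obtain ⟨x, hx, hj⟩ := exists_finite n w
      refine ⟨x, hx, ?_⟩
      simp only [mem_iInter, Finset.mem_range]
      exact fun j hjn => hj j hjn
    · exact isCompact_Icc.inter_right (isClosed_biInter fun j hj => absurd hj (by simp))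
  obtain ⟨x, hx⟩ := hne
  refine ⟨x, fun j => ?_⟩
  have := mem_iInter.mp hx (j + 1)
  have h2 := this.2
  simp only [mem_iInter, Finset.mem_range] at h2
  exact h2 j (by omega)

/-- the block sequence -/
def ww (n : ℕ) : Bool := Nat.log 4 n % 2 = 1

theorem ww_of_block {k n : ℕ} (h1 : 4 ^ k ≤ n) (h2 : n < 4 ^ (k + 1)) : ww n = decide (k % 2 = 1) := by
  have : Nat.log 4 n = k := by
    rw [Nat.log_eq_iff (Or.inr ⟨by norm_num, by
      have : 0 < 4 ^ k := by positivity
      omega⟩)]
    exact ⟨h1, h2⟩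
  simp [ww, this]

/-- the map -/
noncomputable def TT (v : ℝ) (x : ℝ) : ℝ := max (SS x) (min (5 * x - 2) v)

theorem TT_left {v x : ℝ} (hx : x ∈ Icc (0 : ℝ) (2 / 5)) : TT v x = SS x := by
  rw [TT, max_eq_left]
  have h1 : min (5 * x - 2) v ≤ 0 := (min_le_left _ _).trans (by linarith [hx.2])
  have h2 : 0 ≤ SS x := le_min (by linarith [hx.1]) (by linarith [hx.2])
  linarith

theorem TT_right {v x : ℝ} (hv : 0 ≤ v) (hx : 2 / 5 ≤ x) : TT v x = min (5 * x - 2) v := by
  rw [TT, max_eq_right]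
  have h1 : SS x ≤ 0 := (min_le_right _ _).trans (by linarith)
  have h2 : 0 ≤ min (5 * x - 2) v := le_min (by linarith) hv
  linarith

theorem brokenLinear_TT {v : ℝ} (hv0 : 0 < v) (hv1 : v ≤ 2 / 5) : BrokenLinear (TT v) := by
  refine ⟨?_, ?_, 4, ![0, 1 / 5, 2 / 5, (2 + v) / 5, 1], ?_, rfl, rfl, ?_⟩
  · have : Continuous (TT v) := by unfold TT; have := continuous_SS; fun_prop
    exact this.continuousOn
  · intro x hx
    rcases le_total x (2 / 5) with h | h
    · rw [TT_left ⟨hx.1, h⟩]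
      refine ⟨le_min (by linarith [hx.1]) (by linarith), ?_⟩
      rcases le_total x (1 / 5) with h' | h'
      · exact (min_le_left _ _).trans (by linarith)
      · exact (min_le_right _ _).trans (by linarith)
    · rw [TT_right hv0.le h]
      exact ⟨le_min (by linarith) hv0.le, (min_le_right _ _).trans (by linarith)⟩
  · intro i j hij
    fin_cases i <;> fin_cases j <;> simp at hij ⊢ <;> linarith
  · intro j
    fin_cases j
    · refine ⟨5, 0, fun x hx => ?_⟩
      simp at hx
      rw [TT_left ⟨hx.1, by linarith [hx.2]⟩, SS, min_eq_left (by linarith [hx.2])]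
      ring
    · refine ⟨-5, 2, fun x hx => ?_⟩
      simp at hx
      rw [TT_left ⟨by linarith [hx.1], by linarith [hx.2]⟩, SS, min_eq_right (by linarith [hx.1])]
      ring
    · refine ⟨5, -2, fun x hx => ?_⟩
      simp at hx
      rw [TT_right hv0.le (by linarith [hx.1]), min_eq_left (by linarith [hx.2])]
      ring
    · refine ⟨0, v, fun x hx => ?_⟩
      simp at hx
      rw [TT_right hv0.le (by linarith [hx.1]), min_eq_right (by linarith [hx.1])]
      ring

theorem continuous_TT (v : ℝ) : Continuous (TT v) := by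
  unfold TT; have := continuous_SS; fun_prop

/-- points of `[0,1]` whose first iterates avoid the plateau -/
def EE (v : ℝ) (n : ℕ) : Set ℝ := {p | p ∈ Icc (0 : ℝ) 1 ∧ ∀ j ≤ n, (TT v)^[j] p < (2 + v) / 5}

theorem measurableSet_EE (v : ℝ) (n : ℕ) : MeasurableSet (EE v n) := by
  have : EE v n = Icc (0 : ℝ) 1 ∩ ⋂ j ∈ Finset.range (n + 1), {p | (TT v)^[j] p < (2 + v) / 5} := by
    ext p
    simp only [EE, mem_ofPred_eq, mem_inter_iff, mem_iInter, Finset.mem_range, Nat.lt_succ_iff]
  rw [this]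
  refine measurableSet_Icc.inter (Finset.measurableSet_biInter _ fun j _ => ?_)
  exact measurableSet_lt ((continuous_TT v).iterate j).measurable measurable_const

theorem volume_EE_succ {v : ℝ} (hv0 : 0 < v) (hv1 : v ≤ 2 / 5) (n : ℕ) :
    volume (EE v (n + 1)) ≤ ENNReal.ofReal (3 / 5) * volume (EE v n) := by
  have hm := (brokenLinear_TT hv0 hv1).2.1
  have hsub : EE v (n + 1) ⊆ ((5 * ·) ⁻¹' (EE v n)) ∪
      (((5 * ·) ⁻¹' ((fun y : ℝ => 2 - y) ⁻¹' (EE v n))) ∪
      ((5 * ·) ⁻¹' ((fun y : ℝ => y - 2) ⁻¹' (EE v n)))) := by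
    rintro p ⟨hp, hj⟩
    have hT : TT v p ∈ EE v n := by
      refine ⟨hm hp, fun j hjn => ?_⟩
      have := hj (j + 1) (by omega)
      rwa [Function.iterate_succ_apply] at this
    have h0 : p < (2 + v) / 5 := hj 0 (by omega)
    rcases le_total p (2 / 5) with h | h
    · rw [TT_left ⟨hp.1, h⟩, SS] at hT
      rcases le_total p (1 / 5) with h' | h'
      · rw [min_eq_left (by linarith)] at hT
        exact Or.inl hT
      · rw [min_eq_right (by linarith)] at hT
        exact Or.inr (Or.inl hT)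
    · rw [TT_right hv0.le h, min_eq_left (by linarith)] at hT
      exact Or.inr (Or.inr hT)
  have h1 : volume ((5 * ·) ⁻¹' (EE v n)) = ENNReal.ofReal (1 / 5) * volume (EE v n) := by
    rw [Real.volume_preimage_mul_left (by norm_num)]
    congr 2
    norm_num [abs_of_pos]
  have h2 : volume ((5 * ·) ⁻¹' ((fun y : ℝ => 2 - y) ⁻¹' (EE v n))) = ENNReal.ofReal (1 / 5) * volume (EE v n) := by
    rw [Real.volume_preimage_mul_left (by norm_num),
      (volume.measurePreserving_sub_left (2 : ℝ)).measure_preimage (measurableSet_EE v n).nullMeasurableSet]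
    congr 2
    norm_num [abs_of_pos]
  have h3 : volume ((5 * ·) ⁻¹' ((fun y : ℝ => y - 2) ⁻¹' (EE v n))) = ENNReal.ofReal (1 / 5) * volume (EE v n) := by
    rw [Real.volume_preimage_mul_left (by norm_num),
      (measurePreserving_sub_right volume (2 : ℝ)).measure_preimage (measurableSet_EE v n).nullMeasurableSet]
    congr 2
    norm_num [abs_of_pos]
  calc volume (EE v (n + 1)) ≤ _ := measure_mono hsub
    _ ≤ volume ((5 * ·) ⁻¹' (EE v n)) + (volume ((5 * ·) ⁻¹' ((fun y : ℝ => 2 - y) ⁻¹' (EE v n))) +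
        volume ((5 * ·) ⁻¹' ((fun y : ℝ => y - 2) ⁻¹' (EE v n)))) :=
        (measure_union_le _ _).trans (add_le_add le_rfl (measure_union_le _ _))
    _ = ENNReal.ofReal (3 / 5) * volume (EE v n) := by
        rw [h1, h2, h3, ← add_mul, ← add_mul, ← ENNReal.ofReal_add (by norm_num) (by norm_num),
          ← ENNReal.ofReal_add (by norm_num) (by norm_num)]
        norm_num

theorem volume_EE_le {v : ℝ} (hv0 : 0 < v) (hv1 : v ≤ 2 / 5) (n : ℕ) :
    volume (EE v n) ≤ ENNReal.ofReal ((3 / 5) ^ n) := by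
  induction n with
  | zero =>
    calc volume (EE v 0) ≤ volume (Icc (0 : ℝ) 1) := measure_mono fun p hp => hp.1
      _ = _ := by simp
  | succ n ih =>
    refine (volume_EE_succ hv0 hv1 n).trans ?_
    rw [pow_succ, mul_comm ((3 / 5 : ℝ) ^ n), ENNReal.ofReal_mul (by norm_num)]
    exact mul_le_mul_right ih _

theorem ae_enters {v : ℝ} (hv0 : 0 < v) (hv1 : v ≤ 2 / 5) :
    volume {p : ℝ | p ∈ Icc (0 : ℝ) 1 ∧ ∀ j, (TT v)^[j] p < (2 + v) / 5} = 0 := by
  refine le_antisymm ?_ bot_le
  refine ge_of_tendsto' (x := atTop) (f := fun n : ℕ => ENNReal.ofReal ((3 / 5 : ℝ) ^ n)) ?_ fun n => ?_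
  · have := ENNReal.tendsto_ofReal (tendsto_pow_atTop_nhds_zero_of_lt_one (by norm_num : (0 : ℝ) ≤ 3 / 5)
      (by norm_num))
    simpa using this
  · have hsub : {p : ℝ | p ∈ Icc (0 : ℝ) 1 ∧ ∀ j, (TT v)^[j] p < (2 + v) / 5} ⊆ EE v n :=
      fun p hp => ⟨hp.1, fun j _ => hp.2 j⟩
    exact (measure_mono hsub).trans (volume_EE_le hv0 hv1 n)

/-- the sequence of visits along the special orbit -/
noncomputable def bb (n : ℕ) : ℝ := if ww n then 0 else 1

theorem sum_block_even {k : ℕ} (hk : k % 2 = 0) : (3 / 4 : ℝ) * 4 ^ (k + 1) ≤ ∑ n ∈ Finset.range (4 ^ (k + 1)), bb n := by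
  have hsplit : Finset.Ico (4 ^ k) (4 ^ (k + 1)) ⊆ Finset.range (4 ^ (k + 1)) := by
    intro n hn
    rw [Finset.mem_Ico] at hn
    exact Finset.mem_range.mpr hn.2
  have h1 : ∑ n ∈ Finset.Ico (4 ^ k) (4 ^ (k + 1)), bb n = (3 * 4 ^ k : ℕ) := by
    rw [Finset.sum_congr rfl (g := fun _ => (1 : ℝ))]
    · rw [Finset.sum_const, Nat.card_Ico, nsmul_eq_mul, mul_one]
      congr 1
      rw [pow_succ]; omega
    · intro n hn
      rw [Finset.mem_Ico] at hn
      rw [bb, ww_of_block hn.1 hn.2]
      simp [hk]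
  have h2 := Finset.sum_le_sum_of_subset_of_nonneg (f := bb) hsplit fun n _ _ => by
    unfold bb; split_ifs <;> norm_num
  rw [h1] at h2
  push_cast at h2
  rw [pow_succ]
  linarith

theorem sum_block_odd {k : ℕ} (hk : k % 2 = 1) : ∑ n ∈ Finset.range (4 ^ (k + 1)), bb n ≤ (1 / 4 : ℝ) * 4 ^ (k + 1) := by
  have h4 : 4 ^ k ≤ 4 ^ (k + 1) := Nat.pow_le_pow_right (by norm_num) (by omega)
  rw [← Finset.sum_range_add_sum_Ico _ h4]
  have h1 : ∑ n ∈ Finset.Ico (4 ^ k) (4 ^ (k + 1)), bb n = 0 := by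
    refine Finset.sum_eq_zero fun n hn => ?_
    rw [Finset.mem_Ico] at hn
    rw [bb, ww_of_block hn.1 hn.2]
    simp [hk]
  have h2 : ∑ n ∈ Finset.range (4 ^ k), bb n ≤ ∑ n ∈ Finset.range (4 ^ k), (1 : ℝ) :=
    Finset.sum_le_sum fun n _ => by unfold bb; split_ifs <;> norm_num
  rw [Finset.sum_const, Finset.card_range, nsmul_eq_mul, mul_one] at h2
  rw [h1, pow_succ]
  push_cast at h2
  linarith

theorem not_tendsto_bb (L : ℝ) : ¬ Tendsto (fun N : ℕ => (∑ n ∈ Finset.range N, bb n) / N) atTop (𝓝 L) := by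
  intro h
  have hpow : Tendsto (fun k : ℕ => 4 ^ (k + 1)) atTop atTop :=
    (tendsto_pow_atTop_atTop_of_one_lt (by norm_num)).comp (tendsto_add_atTop_nat 1)
  have heven : Tendsto (fun k : ℕ => 2 * k) atTop atTop :=
    tendsto_atTop_mono (fun k => by simp only [id]; omega) tendsto_id
  have hodd : Tendsto (fun k : ℕ => 2 * k + 1) atTop atTop :=
    tendsto_atTop_mono (fun k => by simp only [id]; omega) tendsto_id
  have h1 := (h.comp hpow).comp heven
  have h2 := (h.comp hpow).comp hodd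
  have h3 : 3 / 4 ≤ L := by
    refine ge_of_tendsto' h1 fun k => ?_
    simp only [Function.comp]
    rw [le_div_iff₀ (by positivity)]
    push_cast
    exact sum_block_even (by omega)
  have h4 : L ≤ 1 / 4 := by
    refine le_of_tendsto' h2 fun k => ?_
    simp only [Function.comp]
    rw [div_le_iff₀ (by positivity)]
    push_cast
    exact sum_block_odd (by omega)
  linarith

/-- There is a broken-linear transformation `T` such that, for the interval `R = [0, 1/5]`, the limit `L(R,p)` fails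
to exist for almost every `p ∈ [0,1]`. -/
theorem result : ∃ T : ℝ → ℝ, BrokenLinear T ∧
    ∀ᵐ p ∂(volume.restrict (Icc (0 : ℝ) 1)),
      ¬ ∃ L : ℝ, Tendsto (fun N => freq T (Icc 0 (1 / 5)) p N) atTop (𝓝 L) := by
  obtain ⟨v, hv⟩ := exists_point ww
  have hvI : ∀ j, SS^[j] v ∈ Icc (0 : ℝ) (2 / 5) := fun j => JJ_subset _ (hv j)
  have hv1 : v ≤ 2 / 5 := (hvI 0).2
  have hv0 : 0 < v := by
    rcases (hvI 0).1.eq_or_lt with h | h
    · exfalso
      have h0 : v = 0 := h.symm
      have hz : SS 0 = 0 := by rw [SS]; norm_num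
      have h1 : SS^[4] v = 0 := by
        rw [h0]
        simp [hz]
      have h2 := hv 4
      have hw : ww 4 = true := by
        have := ww_of_block (k := 1) (n := 4) (by norm_num) (by norm_num)
        simpa using this
      rw [h1, hw] at h2
      simp only [JJ, if_true] at h2
      norm_num at h2
    · exact h
  have hiter : ∀ n, (TT v)^[n] v = SS^[n] v := by
    intro n
    induction n with
    | zero => rfl
    | succ n ih =>
      rw [Function.iterate_succ_apply', Function.iterate_succ_apply', ih, TT_left (hvI n)]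
  have hind : ∀ n, (Icc (0 : ℝ) (1 / 5)).indicator (fun _ => (1 : ℝ)) ((TT v)^[n] v) = bb n := by
    intro n
    rw [hiter, bb]
    have h1 := hv n
    have h2 := hvI (n + 1)
    cases hw : ww n
    · rw [hw] at h1
      simp only [JJ, Bool.false_eq_true, if_false] at h1
      rw [indicator_of_mem h1]
      simp
    · rw [hw] at h1
      simp only [JJ, if_true] at h1
      rw [indicator_of_notMem]
      · simp
      · intro h3
        have h4 : SS^[n] v = 1 / 5 := le_antisymm h3.2 h1.1
        rw [Function.iterate_succ_apply', h4, SS] at h2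
        norm_num at h2
  refine ⟨TT v, brokenLinear_TT hv0 hv1, ?_⟩
  rw [ae_restrict_iff' measurableSet_Icc, ae_iff]
  refine measure_mono_null (fun p hp => ?_) (ae_enters hv0 hv1)
  simp only [mem_ofPred_eq, Classical.not_imp, not_not] at hp ⊢
  obtain ⟨hp1, L, hL⟩ := hp
  refine ⟨hp1, ?_⟩
  by_contra hcon
  push Not at hcon
  obtain ⟨i, hi⟩ := hcon
  have hpi : ∀ n, (TT v)^[i + 1 + n] p = (TT v)^[n] v := by
    intro n
    rw [show i + 1 + n = n + (i + 1) by ring, Function.iterate_add_apply, Function.iterate_succ_apply']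
    congr 1
    rw [TT_right hv0.le (by linarith), min_eq_right (by linarith)]
  -- sums along the orbit of `p`
  set c : ℝ := ∑ j ∈ Finset.Icc 1 i, (Icc (0 : ℝ) (1 / 5)).indicator (fun _ => (1 : ℝ)) ((TT v)^[j] p) with hc
  have hsum : ∀ N, ∑ j ∈ Finset.Icc 1 (i + N), (Icc (0 : ℝ) (1 / 5)).indicator (fun _ => (1 : ℝ)) ((TT v)^[j] p)
      = c + ∑ n ∈ Finset.range N, bb n := by
    intro N
    induction N with
    | zero => simp [hc]
    | succ N ih =>
      rw [← add_assoc, Finset.sum_Icc_succ_top (by omega), ih, Finset.sum_range_succ,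
        show i + N + 1 = i + 1 + N by ring, hpi, hind]
      ring
  refine not_tendsto_bb L ?_
  have h1 : Tendsto (fun N : ℕ => freq (TT v) (Icc 0 (1 / 5)) p (i + N)) atTop (𝓝 L) := by
    have := hL.comp (tendsto_add_atTop_nat i)
    refine this.congr fun N => ?_
    simp only [Function.comp]
    rw [add_comm]
  have h2 : Tendsto (fun N : ℕ => freq (TT v) (Icc 0 (1 / 5)) p (i + N) * (((i : ℝ) + N) / N) - c / N) atTop
      (𝓝 (L * 1 - 0)) := by
    refine (h1.mul ?_).sub (tendsto_const_div_atTop_nhds_zero_nat c)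
    have h3 : Tendsto (fun N : ℕ => (i : ℝ) / N + 1) atTop (𝓝 (0 + 1)) :=
      (tendsto_const_div_atTop_nhds_zero_nat (i : ℝ)).add_const 1
    rw [zero_add] at h3
    refine h3.congr' ?_
    filter_upwards [eventually_ge_atTop 1] with N hN
    have : (N : ℝ) ≠ 0 := by positivity
    field_simp
  rw [mul_one, sub_zero] at h2
  refine h2.congr' ?_
  filter_upwards [eventually_ge_atTop 1] with N hN
  have hN' : (N : ℝ) ≠ 0 := by positivity
  have hN'' : ((i : ℝ) + N) ≠ 0 := by positivity
  rw [freq, hsum N]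
  push_cast
  field_simp
  ring

end Pool.Agent.Results.MP_8df504_an.IntervalDivergence
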